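import Pool.Agent.Helper11.PP.GoalsE
import Pool.Agent.Helper42.PP1.Defs
import Pool.Agent.Helper17.PP0.Defs

/-!
# Project PP (MP_fc6b1e_nt), stage 2 (the case `χ₀ = 1`), part D: interface
-/

namespace Pool.Agent.Helper11.PP0

open NumberField Polynomial Module IsDedekindDomain Pool.Agent.Helper51.SigLeo
open Pool.Agent.Helper51.RP Pool.Agent.Helper42.RD Pool.Agent.Helper11.LE Pool.Agent.Helper42.PP
open Pool.Agent.Helper11.PP Pool.Agent.Helper42.PP1 Pool.Agent.Helper17.PP Pool.Agent.Helper17.PP0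

open Classical in
/-- **HYP₀** (interface; proved in parts A and B). As `PP.HYP`, for `M = K`, `M₁ = K₁ = K(ε)`, `ε ∉ K`. -/
def HYP₀ : Prop :=
  ∀ (p : ℕ) [Fact p.Prime] (K K₁ : Type) [Field K] [NumberField K] [Field K₁] [NumberField K₁]
    [Algebra K K₁] [IsGalois K K₁] (ε : K₁), IsPrimitiveRoot ε p →
    (∀ σ : K₁ ≃ₐ[K] K₁, σ ε = ε → σ = 1) → (¬ ∃ ξ : K, IsPrimitiveRoot ξ p) →
  ∀ [Fact (Irreducible (X - 1 : (ZMod p)[X]))] [Fintype (AdjoinRoot (X - 1 : (ZMod p)[X]))]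
    (B : Base p K K K₁ K₁ ε (1 : K ≃ₐ[K] K) (X - 1)),
  ∃ (g : ℝ → ℝ) (K₀ : ℝ), Slow g K₀ ∧
  ∀ (L : IwasawaLog p ℂ_[p]) (T : Set (K →+* ℂ_[p])) (aτ : K₁ˣ) (n : ℕ) (E : TauN n B L T aτ),
    OmType p K ε (aτ : K₁) →
  ∃ (ψ : AddChar (AdjoinRoot (X - 1 : (ZMod p)[X])) ℂ) (K' : ℕ), Hyp₀ (sysN B E) ψ g K' ∧
  ∃ c X₁ : ℝ, 0 < c ∧ ∀ X : ℝ, X₁ ≤ X → ∃ Q : Finset B.LP, c * (X * g X) ≤
    ∑ b ∈ Q.powerset with (sysN B E).Fam b, Real.exp (-((sysN B E).nm b / X))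

end Pool.Agent.Helper11.PP0
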