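import Pool.Agent.Helper63.PP.DSYS
import Pool.Agent.Helper17.PP0.Asm

/-!
# Project PP (MP_fc6b1e_nt), stage 2 (the case `χ₀ = 1`): from finite to infinite sums
-/

namespace Pool.Agent.Helper11.PP0

open Pool.Agent.Helper11.PP Pool.Agent.Helper17.PP Pool.Agent.Helper17.PP0
open Pool.Agent.Helper63.PP (sum_le)

section

variable {p : ℕ} {B B₀ k U Λ C : Type} [Field k] [Fintype k] [Algebra (ZMod p) k]
    [AddCommGroup U] [Module k U] [AddCommGroup Λ] [Module k Λ]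
    [AddCommGroup C] (S : Sys p B B₀ k U Λ C)

/-- The bound for all finite sums over a power set. -/
lemma bound {ψ : AddChar k ℂ} {g : ℝ → ℝ} {K : ℕ}
    (hS : Hyp₀ S ψ g K) {X : ℝ} (hX : 0 < X) (P : Finset B) :
    ∑ b ∈ P.powerset, Real.exp (-(S.nm b : ℝ) / X) ≤ K * (X * g X) := by
  have h := hS.ht (fun _ ↦ 1) (fun q ↦ ⟨zero_le_one, by
    have : (0 : ℝ) ≤ Fintype.card k := Nat.cast_nonneg _
    linarith⟩) X hX P
  simp only [Finset.prod_const_one, one_mul, sub_self, zero_div, Finset.sum_const_zero,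
    Real.exp_zero, mul_one] at h
  have hg := hS.g_one X
  have hK : (0 : ℝ) ≤ K := Nat.cast_nonneg _
  refine le_trans (le_of_eq ?_) (h.trans ?_)
  · exact Finset.sum_congr rfl fun b _ ↦ by rw [neg_div]
  · have h1 : X * min 1 X * g X ≤ X * g X := by
      have h2 : min 1 X ≤ 1 := min_le_left _ _
      have h3 : 0 ≤ X * g X := mul_nonneg hX.le (by linarith)
      nlinarith
    exact mul_le_mul_of_nonneg_left h1 hK

end

open Classical in
theorem sys0 (p : ℕ) [Fact p.Prime] (B B₀ k U Λ C : Type) [Field k] [Fintype k]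
    [Algebra (ZMod p) k] [AddCommGroup U] [Module k U] [Fintype U] [AddCommGroup Λ] [Module k Λ]
    [Fintype Λ] [AddCommGroup C] [Finite C] (S : Sys p B B₀ k U Λ C) (ψ : AddChar k ℂ)
    (g : ℝ → ℝ) (K : ℕ) (hS : Hyp₀ S ψ g K) (c X₁ : ℝ)
    (hc : ∀ X : ℝ, X₁ ≤ X → ∃ P : Finset B, c * (X * g X) ≤
      ∑ b ∈ P.powerset with S.Fam b, Real.exp (-(S.nm b / X))) :
  (∀ X : ℝ, 0 < X → (Summable fun b : {b : Finset B // S.Fam b} ↦
      Real.exp (-(S.nm b.1 : ℝ) / X)) ∧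
    ∑' b : {b : Finset B // S.Fam b}, Real.exp (-(S.nm b.1 : ℝ) / X) ≤ K * (X * g X)) ∧
  (∀ X : ℝ, 0 < X → X₁ ≤ X → c * (X * g X) ≤
    ∑' b : {b : Finset B // S.Fam b}, Real.exp (-(S.nm b.1 : ℝ) / X)) ∧
  ∀ η : ℝ, 0 < η → ∃ X₀ : ℝ, ∀ X : ℝ, X₀ ≤ X →
    ∑' b : {b : {b : Finset B // S.Fam b} | S.Bad b.1}, Real.exp (-(S.nm b.1.1 : ℝ) / X) ≤
      (Fintype.card U / Fintype.card Λ) * (Fintype.card k / (Fintype.card k - 1)) *
        ∑' b : {b : Finset B // S.Fam b}, Real.exp (-(S.nm b.1 : ℝ) / X) + η * (X * g X) := by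
  have hexp : ∀ (X : ℝ) (b : Finset B), 0 ≤ Real.exp (-(S.nm b : ℝ) / X) := fun X b ↦
    (Real.exp_pos _).le
  have hfin : ∀ X : ℝ, 0 < X → ∀ s : Finset {b : Finset B // S.Fam b},
      ∑ b ∈ s, Real.exp (-(S.nm b.1 : ℝ) / X) ≤ K * (X * g X) := by
    intro X hX s
    refine (sum_le (fun b : {b : Finset B // S.Fam b} ↦ b.1) Subtype.val_injective (fun _ ↦ True)
      (fun _ ↦ trivial) (fun b ↦ Real.exp (-(S.nm b : ℝ) / X)) (hexp X) s).trans ?_
    rw [Finset.filter_true]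
    exact bound S hS hX _
  have hsum : ∀ X : ℝ, 0 < X → Summable fun b : {b : Finset B // S.Fam b} ↦
      Real.exp (-(S.nm b.1 : ℝ) / X) := fun X hX ↦
    summable_of_sum_le (fun b ↦ hexp X b.1) (hfin X hX)
  -- finite sums over the family are at most the infinite sum
  have hle : ∀ X : ℝ, 0 < X → ∀ P : Finset B,
      ∑ b ∈ P.powerset with S.Fam b, Real.exp (-(S.nm b : ℝ) / X) ≤
        ∑' b : {b : Finset B // S.Fam b}, Real.exp (-(S.nm b.1 : ℝ) / X) := by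
    intro X hX P
    have h2 : ∑ b ∈ P.powerset with S.Fam b, Real.exp (-(S.nm b : ℝ) / X) =
        ∑ b ∈ (P.powerset.subtype S.Fam), Real.exp (-(S.nm b.1 : ℝ) / X) := by
      rw [← Finset.sum_subtype_eq_sum_filter]
    rw [h2]
    exact (hsum X hX).sum_le_tsum _ fun b _ ↦ hexp X b.1
  refine ⟨fun X hX ↦ ⟨hsum X hX, (hsum X hX).tsum_le_of_sum_le (hfin X hX)⟩, ?_, ?_⟩
  · intro X hX hX1
    obtain ⟨P, hP⟩ := hc X hX1
    refine hP.trans (le_trans (le_of_eq ?_) (hle X hX P))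
    exact Finset.sum_congr rfl fun b _ ↦ by rw [neg_div]
  · intro η hη
    obtain ⟨X₀, h0⟩ := mt₀ p B B₀ k U Λ C S ψ g K hS η hη
    refine ⟨max X₀ 1, fun X hX ↦ ?_⟩
    have hX0 : X₀ ≤ X := (le_max_left _ _).trans hX
    have hXp : 0 < X := lt_of_lt_of_le one_pos ((le_max_right _ _).trans hX)
    have hk1 : (1 : ℝ) < Fintype.card k := by
      exact_mod_cast Fintype.one_lt_card
    have hθ : 0 ≤ ((Fintype.card U : ℝ) / Fintype.card Λ) *
        ((Fintype.card k : ℝ) / (Fintype.card k - 1)) :=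
      mul_nonneg (by positivity) (div_nonneg (by linarith) (by linarith))
    refine Real.tsum_le_of_sum_le (fun b ↦ hexp X b.1.1) fun s ↦ ?_
    refine (sum_le (fun b : {b : {b : Finset B // S.Fam b} | S.Bad b.1} ↦ b.1.1)
      (Subtype.val_injective.comp Subtype.val_injective) (fun b ↦ S.Fam b ∧ S.Bad b)
      (fun b ↦ ⟨b.1.2, b.2⟩) (fun b ↦ Real.exp (-(S.nm b : ℝ) / X)) (hexp X) s).trans ?_
    have h2 := h0 X hX0 (s.biUnion fun b ↦ b.1.1)
    have h3 := hle X hXp (s.biUnion fun b ↦ b.1.1)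
    have e1 : ∀ b : Finset B, Real.exp (-((S.nm b : ℝ) / X)) = Real.exp (-(S.nm b : ℝ) / X) :=
      fun b ↦ by rw [neg_div]
    simp only [e1] at h2
    refine le_trans (le_of_eq ?_) (h2.trans ?_)
    · congr!
    have h4 := mul_le_mul_of_nonneg_left h3 hθ
    linarith

end Pool.Agent.Helper11.PP0
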