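import Pool.Agent.Helper11.PP.MOM
import Pool.Agent.Helper11.PP0.Goals
import Pool.Agent.Helper11.PP0.SYS
import Pool.Agent.Helper94.PP1.EXT
import Pool.Agent.Helper94.PP1.EXB
import Pool.Agent.Helper94.PP1.RNK
import Pool.Agent.Helper88.LE.SUN
import Pool.Agent.Helper42.PP1.SEL
import Pool.Agent.Helper42.PP1.LAB
import Pool.Agent.Helper77.PPO.Goals2

/-!
# Project PP (MP_fc6b1e_nt, density theorem), stage 2: the moment theorem in class form for `χ₀ = 1`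
-/

namespace Pool.Agent.Helper11.PP0

open NumberField Polynomial Module IsDedekindDomain TensorProduct Pool.Agent.Helper51.SigLeo
open Pool.Agent.Helper51.RP Pool.Agent.Helper42.RD Pool.Agent.Helper11.LE Pool.Agent.Helper42.PP
open Pool.Agent.Helper11.PP Pool.Agent.Helper42.PP1 Pool.Agent.Helper17.PP
open Pool.Agent.Helper17.PP0 Pool.Agent.Helper77.PPO
open Pool.Agent.Helper79.PP (clp_eq clp_eq_one nice_val)
open Pool.Agent.Helper94.PP1 (ext1 exb1 rank1' pol_one)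

theorem above_self' {K k : Type} [Field K] [NormedField k] (T : Set (K →+* k)) :
    (above T : Set (K →+* k)) = T := by
  ext τ
  change τ.comp (algebraMap K K) ∈ T ↔ τ ∈ T
  have h : τ.comp (algebraMap K K) = τ := by
    ext x
    rfl
  rw [h]

theorem o_mom (hHYP : HYP₀) (hNLS : D_NLS) (hTAU : D_TAU) (hCND : D_CND) (hABS : D_ABS) :
    O_MOM := by
  classical
  intro p hpF L K K₁ _ _ _ _ _ ε hC hμ T hTc hTn
  have hp : p.Prime := hpF.out
  have hgal := hC.gal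
  have hirr0 : Irreducible (X - 1 : (ZMod p)[X]) := by
    have h := irreducible_X_sub_C (1 : ZMod p)
    rwa [map_one] at h
  have hirr : Fact (Irreducible (X - 1 : (ZMod p)[X])) := ⟨hirr0⟩
  have hP0 : (X - 1 : (ZMod p)[X]) ≠ 0 := hirr0.ne_zero
  have hfinA : Module.Finite (ZMod p) (AdjoinRoot (X - 1 : (ZMod p)[X])) :=
    (AdjoinRoot.powerBasis hP0).finite
  have hfA : Finite (AdjoinRoot (X - 1 : (ZMod p)[X])) := Module.finite_of_finite (ZMod p)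
  let instA : Fintype (AdjoinRoot (X - 1 : (ZMod p)[X])) := Fintype.ofFinite _
  have hdeg : (X - 1 : (ZMod p)[X]).natDegree = 1 := by
    have h := natDegree_X_sub_C (1 : ZMod p)
    rwa [map_one] at h
  have hcard : Fintype.card (AdjoinRoot (X - 1 : (ZMod p)[X])) = p := by
    rw [Module.card_eq_pow_finrank (K := ZMod p) (V := AdjoinRoot (X - 1 : (ZMod p)[X])),
      ZMod.card, (AdjoinRoot.powerBasis hP0).finrank, AdjoinRoot.powerBasis_dim, hdeg, pow_one]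
  have hne : Nonempty (AlgebraicClosure ℚ →+* ℂ_[p]) :=
    Pool.Agent.Helper35.RD.nonempty_hom ℚ ℂ_[p]
  obtain ⟨B⟩ := exb1 (p := p) hC.prim hC.gen
  obtain ⟨g, K₀, hslow, hH⟩ := hHYP p K K₁ ε hC.prim hC.gen hμ B
  have hSit := sitW_one p K K₁ ε hC.prim hC.gen
  have hr : B.r ≤ B.S.card + Units.rank K :=
    rank1' Pool.Agent.Helper88.LE.l_sun hC.prim hC.gen hμ B
  set n : ℕ := B.S.card + T.ncard with hn
  obtain ⟨F₀, hF₀, huq⟩ := hTAU p K₁ (up K₁ B.S) (up_finite B.S)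
    {a : K₁ˣ | OmType p K ε (a : K₁) ∧ NiceU p a}
  have hF₀1 : ∀ τ : F₀, OmType p K ε ((τ : K₁ˣ) : K₁) := fun τ => (hF₀ τ τ.2).1
  have hE : ∀ τ : F₀, Nonempty (TauN n B L T (τ : K₁ˣ)) := by
    intro τ
    refine ext1 hne L hC.prim hC.gen T B τ (hF₀1 τ) ?_
    intro Q hQ
    refine nice_val (hF₀ τ τ.2).2 Q ?_
    exact (Q.valuation_lt_one_iff_mem (K := K₁) (p : 𝓞 K₁)).1 (by simpa using hQ)
  let E : ∀ τ : F₀, TauN n B L T (τ : K₁ˣ) := fun τ => (hE τ).some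
  have hH' : ∀ τ : F₀, ∃ (ψ : AddChar (AdjoinRoot (X - 1 : (ZMod p)[X])) ℂ) (K' : ℕ),
      Hyp₀ (sysN B (E τ)) ψ g K' ∧ ∃ c X₁ : ℝ, 0 < c ∧ ∀ X : ℝ, X₁ ≤ X →
        ∃ Q : Finset B.LP, c * (X * g X) ≤ ∑ b ∈ Q.powerset with (sysN B (E τ)).Fam b,
          Real.exp (-((sysN B (E τ)).nm b / X)) := fun τ => hH L T τ n (E τ) (hF₀1 τ)
  choose ψ K' hHyp c X₁ hc hlow using hH'
  have hS : ∀ τ : F₀, _ := fun τ => sys0 p B.LP (HeightOneSpectrum (𝓞 K))
    (AdjoinRoot (X - 1 : (ZMod p)[X])) (Fin B.r → AdjoinRoot (X - 1 : (ZMod p)[X]))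
    (Fin n → AdjoinRoot (X - 1 : (ZMod p)[X])) (Fin B.t → ZMod p) (sysN B (E τ)) (ψ τ)
    g (K' τ) (hHyp τ) (c τ) (X₁ τ) (hlow τ)
  have hL : ∀ τ : F₀, _ := fun τ => Pool.Agent.Helper42.PP1.w_lab p ℂ_[p] K K K₁ K₁ ε 1 (X - 1)
    hSit L T B τ n (E τ) (hF₀1 τ)
  obtain ⟨Kc, c', X', hKc, hc', hcc, hX'⟩ := common (fun τ : F₀ => max K₀ (K' τ)) c X₁ hc
  obtain ⟨τ₀⟩ : Nonempty F₀ := by
    have h1 : OmType p K ε ((1 : K₁ˣ) : K₁) := by
      intro σ
      have hε : (σ ε) ^ p = 1 := by rw [← map_pow, hC.prim.pow_eq_one, map_one]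
      have : NeZero p := ⟨hp.ne_zero⟩
      obtain ⟨i, -, hi⟩ := hC.prim.eq_pow_of_pow_eq_one hε
      exact ⟨i, 1, hi.symm, by simp⟩
    obtain ⟨τ, ⟨h2, -⟩, -⟩ := huq 1 ⟨h1, 1, 1, by simp, by simp⟩
    exact ⟨⟨τ, h2⟩⟩
  have hKc0 : Slow g Kc := slow_mono hslow ((le_max_left _ _).trans (hKc τ₀))
  have hp1 : (1 : ℝ) < p := by exact_mod_cast hp.one_lt
  have hp0 : (0 : ℝ) < p := by linarith
  have hθ : (0 : ℝ) ≤ (p : ℝ) ^ (Units.rank K + 1) / (p ^ T.ncard * (p - 1)) := by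
    have h2 : (0 : ℝ) ≤ (p : ℝ) - 1 := by linarith
    positivity
  have hθ' : ((p : ℝ) ^ B.r / p ^ n) * (p / (p - 1)) ≤
      (p : ℝ) ^ (Units.rank K + 1) / (p ^ T.ncard * (p - 1)) := by
    have h2 : (0 : ℝ) < (p : ℝ) - 1 := by linarith
    rw [div_mul_div_comm, div_le_div_iff₀ (by positivity) (by positivity)]
    have h3 : (p : ℝ) ^ B.r ≤ p ^ (B.S.card + Units.rank K) := pow_le_pow_right₀ hp1.le hr
    calc (p : ℝ) ^ B.r * p * (p ^ T.ncard * (p - 1))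
        ≤ p ^ (B.S.card + Units.rank K) * p * (p ^ T.ncard * (p - 1)) := by gcongr
      _ = p ^ (Units.rank K + 1) * (p ^ n * (p - 1)) := by rw [hn]; ring
  exact core B hNLS hCND hABS F₀ ⟨((τ₀ : K₁ˣ) : K₁), (τ₀ : K₁ˣ).ne_zero, hF₀1 τ₀⟩
    (fun c hc => hF₀ c hc) (fun a h1 h2 => huq a ⟨h1, h2⟩)
    (fun τ b => (sysN B (E τ)).Fam b) (fun τ b => (sysN B (E τ)).Bad b)
    (fun a ha => ((hL τ₀).1 a ha).1)
    (fun a ha v hv W hW => ((hL τ₀).1 a ha).2.1 v hv W hW)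
    (fun a ha v hv hv' W hW => ((hL τ₀).1 a ha).2.2.1 v hv hv' W hW)
    (fun τ a ha hl => ((hL τ).1 a ha).2.2.2 hl)
    (fun τ b hb => (hL τ).2.1 b hb)
    (fun τ a a' ha ha' hl hl' hlab => (hL τ).2.2.1 a a' ha ha' hl hl' hlab)
    {c : ClP p K₁ | ∃ x ∈ SelO1 L T c, x ≠ 1}
    (fun τ a hcB ha hl => by
      obtain ⟨x, ⟨y, a₁, hyx, haa, hsel⟩, hx1⟩ := hcB
      obtain ⟨z, hz⟩ := clp_eq.1 haa.symm
      have h1 : OmType p K ε (a₁ : K₁) := by rw [hz]; exact om_mul_pow ha z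
      have h2 : LocS p (up K₁ B.S) (a₁ / (τ : K₁ˣ)) := by
        have h3 := (Pool.Agent.Helper15.PP.gZ p _).mul_mem (Pool.Agent.Helper15.PP.mem_gZ.2 hl)
          (Pool.Agent.Helper15.PP.mem_gZ.2 (locS_pow (p := p) (Z := up K₁ B.S) z))
        have h4 : a₁ / (τ : K₁ˣ) = a / τ * z ^ p := by rw [hz, mul_div_right_comm]
        rw [h4]
        exact Pool.Agent.Helper15.PP.mem_gZ.1 h3
      have hsel' : Sel L (above T : Set (K →+* ℂ_[p])) (X - 1 : (ZMod p)[X]) (1 : K ≃ₐ[K] K)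
          (algebraMap K₁ K₁ (a₁ : K₁)) y :=
        { pol := ⟨y, pol_one y⟩
          loc := hsel.loc
          sig := by rw [above_self']; exact hsel.sig }
      have h5 := Pool.Agent.Helper42.PP1.w_sel p ℂ_[p] K K K₁ K₁ ε 1 (X - 1) hSit L T B τ n (E τ)
        (hF₀1 τ) a₁ h1 h2 ⟨y, hsel', fun hy => hx1 (by rw [← hyx, clp_eq_one]; exact hy)⟩
      rw [hz, lab_mul_pow] at h5
      exact h5)
    g Kc c' X' _ hc' hθ hKc0
    (fun τ X hX => ⟨((hS τ).1 X hX).1, ((hS τ).1 X hX).2.trans (by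
      refine mul_le_mul_of_nonneg_right ((le_max_right _ _).trans (hKc τ)) ?_
      exact mul_nonneg hX.le (zero_le_one.trans (hslow.one X)))⟩)
    (fun τ X hX hX1 => by
      refine le_trans ?_ ((hS τ).2.1 X hX ((hX' τ).trans hX1))
      refine mul_le_mul_of_nonneg_right (hcc τ) ?_
      exact mul_nonneg hX.le (zero_le_one.trans (hslow.one X)))
    (fun η hη => by
      have h1 : ∀ τ : F₀, _ := fun τ => (hS τ).2.2 η hη
      choose X₀ hX₀ using h1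
      refine ⟨∑ τ, |X₀ τ|, fun τ X hX => ?_⟩
      have h2 := hX₀ τ X (((le_abs_self _).trans (Finset.single_le_sum (f := fun τ => |X₀ τ|)
        (fun i _ => abs_nonneg _) (Finset.mem_univ τ))).trans hX)
      have h3 : (Fintype.card (Fin B.r → AdjoinRoot (Polynomial.X - 1 : (ZMod p)[X])) : ℝ) =
          p ^ B.r := by
        rw [Fintype.card_fun, hcard, Fintype.card_fin, Nat.cast_pow]
      have h4 : (Fintype.card (Fin n → AdjoinRoot (Polynomial.X - 1 : (ZMod p)[X])) : ℝ) =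
          p ^ n := by
        rw [Fintype.card_fun, hcard, Fintype.card_fin, Nat.cast_pow]
      rw [h3, h4, hcard] at h2
      refine h2.trans ?_
      refine add_le_add (mul_le_mul_of_nonneg_right hθ' ?_) le_rfl
      exact tsum_nonneg fun b => (Real.exp_pos _).le)

end Pool.Agent.Helper11.PP0
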